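import Pool.Agent.Lib.MP_85199e_an.RealForm

/-!
# Everywhere divergent Fourier series under a prescribed monotone majorant
-/

namespace Pool.Agent.Lib.MP_85199e_an.Retired.FourierMajorant

open Real MeasureTheory

/-- For every nonincreasing `ρ ≥ 0` that is not square summable there are integrable `f`, `g`
whose Fourier series are `∑ (aₙ cos nx + bₙ sin nx)` and its conjugate series, with
`aₙ² + bₙ² ≤ ρₙ²`, such that the sums `∑_{n ≤ N} (aₙ cos (nx + θ) + bₙ sin (nx + θ))` are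
unbounded in `N` for all real `x` and `θ`. -/
theorem result (ρ : ℕ → ℝ) (hanti : Antitone ρ) (hpos : ∀ n, 0 ≤ ρ n)
    (hdiv : ¬ Summable fun n => ρ n ^ 2) :
    ∃ (f g : ℝ → ℝ) (a b : ℕ → ℝ),
      IntervalIntegrable f volume 0 (2 * π) ∧ IntervalIntegrable g volume 0 (2 * π) ∧
      (∀ n : ℕ, a n = 1 / π * ∫ x in (0:ℝ)..2 * π, f x * cos (n * x)) ∧
      (∀ n : ℕ, b n = 1 / π * ∫ x in (0:ℝ)..2 * π, f x * sin (n * x)) ∧
      (∀ n : ℕ, -b n = 1 / π * ∫ x in (0:ℝ)..2 * π, g x * cos (n * x)) ∧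
      (∀ n : ℕ, a n = 1 / π * ∫ x in (0:ℝ)..2 * π, g x * sin (n * x)) ∧
      a 0 = 0 ∧ (∀ n, a n ^ 2 + b n ^ 2 ≤ ρ n ^ 2) ∧
      ∀ x θ : ℝ, ¬ BddAbove (Set.range fun N : ℕ =>
        |∑ n ∈ Finset.Icc 1 N, (a n * cos (n * x + θ) + b n * sin (n * x + θ))|) :=
  Pool.Agent.Lib.MP_85199e_an.real_form ρ hanti hpos hdiv

/-- The question as posed follows with `ρₙ = (n + 1)^(-1/2)` and `θ = 0`. -/
theorem posed : ∃ a b : ℕ → ℝ,
    (∀ ε : ℝ, 0 < ε → Summable fun n => |a n| ^ (2 + ε) + |b n| ^ (2 + ε)) ∧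
    ∀ x l : ℝ, ¬ Filter.Tendsto (fun N : ℕ =>
      ∑ n ∈ Finset.Icc 1 N, (a n * cos (n * x) + b n * sin (n * x))) Filter.atTop (nhds l) := by
  have hp : ∀ n : ℕ, (0 : ℝ) < n + 1 := fun n => by positivity
  obtain ⟨-, -, a, b, -, -, -, -, -, -, -, h1, h2⟩ := result (fun n => ((n : ℝ) + 1) ^ (-1 / 2 : ℝ))
    (fun m n h => rpow_le_rpow_of_nonpos (hp m) (by exact_mod_cast Nat.succ_le_succ h)
      (by norm_num)) (fun n => (rpow_pos_of_pos (hp n) _).le) (fun h => by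
      refine not_summable_one_div_natCast ((summable_nat_add_iff 1).1 (h.congr fun n => ?_))
      rw [← rpow_natCast, ← rpow_mul (hp n).le]
      norm_num [rpow_neg_one])
  refine ⟨a, b, fun ε hε => ?_, fun x l h => h2 x 0 ?_⟩
  · have hs : Summable fun n : ℕ => ((n : ℝ) + 1) ^ (-1 / 2 * (2 + ε)) := by
      have := (summable_nat_add_iff 1).2
        ((summable_nat_rpow (p := -1 / 2 * (2 + ε))).2 (by linarith))
      simpa using this
    have k : ∀ (n : ℕ) (t : ℝ), t ^ 2 ≤ (((n : ℝ) + 1) ^ (-1 / 2 : ℝ)) ^ 2 →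
        |t| ^ (2 + ε) ≤ ((n : ℝ) + 1) ^ (-1 / 2 * (2 + ε)) := fun n t ht => by
      rw [rpow_mul (hp n).le]
      exact rpow_le_rpow (abs_nonneg _)
        (abs_le_of_sq_le_sq' ht (rpow_pos_of_pos (hp n) _).le |> abs_le.2) (by linarith)
    refine Summable.of_nonneg_of_le (fun n => by positivity) (fun n => add_le_add
      (k n _ (by linarith [h1 n, sq_nonneg (b n)])) (k n _ (by linarith [h1 n, sq_nonneg (a n)])))
      (hs.add hs)
  · simpa only [add_zero] using h.abs.bddAbove_range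

end Pool.Agent.Lib.MP_85199e_an.Retired.FourierMajorant
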